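import Mathlib

/-!
# Eigenspaces after extension of scalars
-/

set_option autoImplicit false

namespace Pool.Agent.X305.PE

open Module

variable {E F : Type*} [Field E] [Field F] (φ : E →+* F) {β : Type*} [Fintype β]

/-- linear independence under an extension of fields -/
lemma indep_map {s : ℕ} {u : Fin s → β → E} (hu : LinearIndependent E u) :
    LinearIndependent F (fun i k => φ (u i k)) := by
  letI : Algebra E F := φ.toAlgebra
  rw [Fintype.linearIndependent_iff] at hu ⊢
  intro a ha i0
  by_contra hne
  obtain ⟨ψ, hψ⟩ : ∃ ψ : F →ₗ[E] E, ψ (a i0) ≠ 0 := by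
    by_contra h
    push Not at h
    exact hne ((Module.forall_dual_apply_eq_zero_iff E (a i0)).1 h)
  apply hψ
  refine hu (fun i => ψ (a i)) ?_ i0
  funext k
  have h1 := congrFun ha k
  rw [Finset.sum_apply, Pi.zero_apply] at h1 ⊢
  have h2 : ψ (∑ i, (a i • fun k => φ (u i k)) k) = 0 := by rw [h1, map_zero]
  rw [map_sum] at h2
  rw [← h2]
  refine Finset.sum_congr rfl fun i _ => ?_
  rw [Pi.smul_apply, Pi.smul_apply, smul_eq_mul, smul_eq_mul]
  have h3 : a i * φ (u i k) = u i k • a i := by
    rw [Algebra.smul_def, mul_comm]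
    rfl
  rw [h3, map_smul, smul_eq_mul, mul_comm]

/-- the kernel of a matrix under an extension of fields -/
lemma ker_map {A : Matrix β β E} {s : ℕ} {u : Fin s → β → E}
    (hker : ∀ x : β → E, A.mulVec x = 0 → x ∈ Submodule.span E (Set.range u)) {x : β → F}
    (hx : (A.map φ).mulVec x = 0) : x ∈ Submodule.span F (Set.range fun i k => φ (u i k)) := by
  classical
  letI : Algebra E F := φ.toAlgebra
  set w := Basis.ofVectorSpace E F with hw
  set y : Basis.ofVectorSpaceIndex E F → β → E := fun j k => w.repr (x k) j with hy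
  have hy0 : ∀ j, A.mulVec (y j) = 0 := by
    intro j
    funext i
    have h1 := congrFun hx i
    rw [Matrix.mulVec, dotProduct, Pi.zero_apply] at h1
    have h2 : w.repr (∑ k, A i k • x k) j = 0 := by
      have : ∑ k, A i k • x k = 0 := by
        rw [← h1]
        refine Finset.sum_congr rfl fun k _ => ?_
        rw [Algebra.smul_def, Matrix.map_apply]
        rfl
      rw [this, map_zero, Finsupp.zero_apply]
    rw [map_sum, Finsupp.finsetSum_apply] at h2
    rw [Matrix.mulVec, dotProduct, Pi.zero_apply, ← h2]
    refine Finset.sum_congr rfl fun k _ => ?_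
    rw [map_smul, Finsupp.smul_apply, smul_eq_mul]
  have hmem : ∀ j, (fun k => φ (y j k)) ∈ Submodule.span F (Set.range fun i k => φ (u i k)) := by
    intro j
    refine Submodule.span_induction (p := fun v _ => (fun k => φ (v k)) ∈
      Submodule.span F (Set.range fun i k => φ (u i k))) ?_ ?_ ?_ ?_ (hker (y j) (hy0 j))
    · rintro _ ⟨i, rfl⟩
      exact Submodule.subset_span ⟨i, rfl⟩
    · have : (fun k : β => φ ((0 : β → E) k)) = 0 := by
        funext k
        simp
      rw [this]
      exact Submodule.zero_mem _
    · intro a b _ _ ha hb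
      have : (fun k : β => φ ((a + b) k)) = (fun k => φ (a k)) + fun k => φ (b k) := by
        funext k
        simp
      rw [this]
      exact Submodule.add_mem _ ha hb
    · intro r a _ ha
      have : (fun k : β => φ ((r • a) k)) = φ r • fun k => φ (a k) := by
        funext k
        simp
      rw [this]
      exact Submodule.smul_mem _ _ ha
  set S : Finset (Basis.ofVectorSpaceIndex E F) := Finset.univ.biUnion
    (fun k : β => (w.repr (x k)).support) with hS
  have hx2 : x = ∑ j ∈ S, w j • fun k => φ (y j k) := by
    funext k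
    rw [Finset.sum_apply]
    have h1 : x k = ∑ j ∈ S, w.repr (x k) j • w j := by
      conv_lhs => rw [← w.linearCombination_repr (x k), Finsupp.linearCombination_apply,
        Finsupp.sum]
      refine Finset.sum_subset (fun j hj => ?_) (fun j _ hj => ?_)
      · rw [hS, Finset.mem_biUnion]
        exact ⟨k, Finset.mem_univ k, hj⟩
      · rw [Finsupp.notMem_support_iff] at hj
        rw [hj, zero_smul]
    conv_lhs => rw [h1]
    refine Finset.sum_congr rfl fun j _ => ?_
    rw [Pi.smul_apply, smul_eq_mul, Algebra.smul_def, mul_comm]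
    rfl
  rw [hx2]
  exact Submodule.sum_mem _ fun j _ => Submodule.smul_mem _ _ (hmem j)

variable {V : Type*} [AddCommGroup V] [Module F V] [DecidableEq β]

/-- **The eigenspace after extension of scalars**. -/
theorem eig_family {w : β → V} (hw : LinearIndependent F w) (T : V →ₗ[F] V) {A : Matrix β β E}
    (hT : ∀ k, T (w k) = ∑ l, φ (A l k) • w l) (lam : E) {s : ℕ} {u : Fin s → β → E}
    (hu : LinearIndependent E u) (hmem : ∀ i, A.mulVec (u i) = lam • u i)
    (hker : ∀ x, A.mulVec x = lam • x → x ∈ Submodule.span E (Set.range u)) :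
    LinearIndependent F (fun i => ∑ k, φ (u i k) • w k) ∧
    ∀ x ∈ Submodule.span F (Set.range w), T x = φ lam • x ↔
      x ∈ Submodule.span F (Set.range fun i => ∑ k, φ (u i k) • w k) := by
  set Φ : (β → F) →ₗ[F] V := Fintype.linearCombination F w with hΦ
  have hΦap : ∀ x, Φ x = ∑ k, x k • w k := fun x => rfl
  have hΦinj : LinearMap.ker Φ = ⊥ := by
    rw [LinearMap.ker_eq_bot']
    intro x hx
    rw [Fintype.linearIndependent_iff] at hw
    exact funext (hw x hx)
  have hTΦ : ∀ x, T (Φ x) = Φ ((A.map φ).mulVec x) := by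
    intro x
    rw [hΦap, hΦap, map_sum]
    simp only [map_smul, hT, Finset.smul_sum, Matrix.mulVec, dotProduct, Finset.sum_smul, smul_smul,
      Matrix.map_apply]
    rw [Finset.sum_comm]
    refine Finset.sum_congr rfl fun l _ => Finset.sum_congr rfl fun k _ => ?_
    rw [mul_comm]
  have hli := indep_map φ hu
  have hspan : ∀ y : β → F, Φ y ∈ Submodule.span F (Set.range fun i => ∑ k, φ (u i k) • w k) ↔
      y ∈ Submodule.span F (Set.range fun i k => φ (u i k)) := by
    intro y
    have h1 : Submodule.span F (Set.range fun i => ∑ k, φ (u i k) • w k) =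
        (Submodule.span F (Set.range fun i k => φ (u i k))).map Φ := by
      rw [Submodule.map_span, ← Set.range_comp]
      rfl
    rw [h1]
    constructor
    · rintro ⟨z, hz, hzy⟩
      have : z = y := LinearMap.ker_eq_bot.1 hΦinj hzy
      rw [← this]
      exact hz
    · exact fun hy => ⟨y, hy, rfl⟩
  refine ⟨?_, ?_⟩
  · have := hli.map' Φ hΦinj
    exact this
  · intro x hx
    obtain ⟨y, rfl⟩ : ∃ y, Φ y = x := by
      rw [← Fintype.range_linearCombination] at hx
      exact hx
    rw [hspan, hTΦ, ← map_smul]
    have hAl : ∀ x : β → E, (A - lam • (1 : Matrix β β E)).mulVec x = 0 ↔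
        A.mulVec x = lam • x := by
      intro x
      rw [Matrix.sub_mulVec, Matrix.smul_mulVec, Matrix.one_mulVec, sub_eq_zero]
    constructor
    · intro h
      have h2 : (A.map φ).mulVec y = φ lam • y := LinearMap.ker_eq_bot.1 hΦinj h
      refine ker_map φ (A := A - lam • (1 : Matrix β β E)) (fun x hx => hker x ((hAl x).1 hx)) ?_
      have h3 : (A - lam • (1 : Matrix β β E)).map φ = A.map φ - φ lam • (1 : Matrix β β F) := by
        ext i j
        rw [Matrix.map_apply, Matrix.sub_apply, Matrix.sub_apply, Matrix.smul_apply,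
          Matrix.smul_apply, Matrix.map_apply, map_sub, smul_eq_mul, smul_eq_mul, map_mul]
        congr 2
        by_cases hij : i = j
        · subst hij; simp
        · rw [Matrix.one_apply_ne hij, Matrix.one_apply_ne hij, map_zero]
      rw [h3, Matrix.sub_mulVec, Matrix.smul_mulVec, Matrix.one_mulVec, h2, sub_self]
    · intro h
      congr 1
      refine Submodule.span_induction (p := fun v _ => (A.map φ).mulVec v = φ lam • v)
        ?_ ?_ ?_ ?_ h
      · rintro _ ⟨i, rfl⟩
        funext l
        have h1 := congrFun (hmem i) l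
        have h2 := congrArg φ h1
        rw [Matrix.mulVec, dotProduct, map_sum, Pi.smul_apply, smul_eq_mul, map_mul] at h2
        rw [Matrix.mulVec, dotProduct, Pi.smul_apply, smul_eq_mul, ← h2]
        refine Finset.sum_congr rfl fun k _ => ?_
        rw [map_mul, Matrix.map_apply]
      · rw [Matrix.mulVec_zero, smul_zero]
      · intro a b _ _ ha hb
        rw [Matrix.mulVec_add, ha, hb, smul_add]
      · intro r a _ ha
        rw [Matrix.mulVec_smul, ha, smul_comm]

/-- the Gram matrix of the vectors `u i` -/
def gramE {s : ℕ} (S : Matrix β β E) (u : Fin s → β → E) : Matrix (Fin s) (Fin s) E :=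
  Matrix.of fun i j => ∑ k, ∑ l, u i k * u j l * S k l

lemma gram_eig {w : β → V} {S : Matrix β β E} {f : LinearMap.BilinForm F V}
    (hf : ∀ k l, f (w k) (w l) = φ (S k l)) {s : ℕ} (u : Fin s → β → E) (i j : Fin s) :
    f (∑ k, φ (u i k) • w k) (∑ l, φ (u j l) • w l) = φ (gramE S u i j) := by
  rw [map_sum f, LinearMap.sum_apply, gramE, Matrix.of_apply, map_sum]
  refine Finset.sum_congr rfl fun k _ => ?_
  rw [map_smul f, LinearMap.smul_apply, map_sum, Finset.smul_sum, map_sum]
  refine Finset.sum_congr rfl fun l _ => ?_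
  rw [map_smul, hf, smul_eq_mul, smul_eq_mul, map_mul, map_mul]
  ring

end Pool.Agent.X305.PE
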