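import Pool.Agent.X305.PI.Circ
import Pool.Agent.X305.PE.Eig

/-!
# The discriminant of the eigenspaces of an endomorphism of a polarized Hodge structure
-/

set_option autoImplicit false

namespace Pool.Agent.X305.PE

open Module Pool.Agent.X305.PI TensorProduct

/-- a basis of a subspace -/
lemma exists_basis_of {F V : Type*} [Field F] [AddCommGroup V] [Module F V] {U : Submodule F V}
    {s : ℕ} {e : Fin s → V} (hli : LinearIndependent F e)
    (hU : ∀ x, x ∈ U ↔ x ∈ Submodule.span F (Set.range e)) :
    ∃ b' : Basis (Fin s) F U, ∀ i, (b' i : V) = e i := by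
  have hUe : U = Submodule.span F (Set.range e) := Submodule.ext hU
  subst hUe
  refine ⟨Basis.span hli, fun i => ?_⟩
  rw [Basis.span_apply]

variable {B : Type} [AddCommGroup B] [Module ℚ B]

/-- The extension of a rational linear map to `ℝ ⊗ B`. -/
noncomputable def realMap (α : B →ₗ[ℚ] B) : RealExt B →ₗ[ℝ] RealExt B :=
  LinearMap.baseChange ℝ α

lemma realMap_toReal (α : B →ₗ[ℚ] B) (x : B) : realMap α (toReal x) = toReal (α x) :=
  LinearMap.baseChange_tmul _ _ _

lemma toReal_add (x y : B) : toReal (x + y) = toReal x + toReal y := TensorProduct.tmul_add _ _ _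

lemma toReal_smul (q : ℚ) (x : B) : toReal (q • x) = (q : ℝ) • toReal x := by
  show (1 : ℝ) ⊗ₜ[ℚ] (q • x) = (q : ℝ) • ((1 : ℝ) ⊗ₜ[ℚ] x)
  rw [TensorProduct.tmul_smul, TensorProduct.smul_tmul', TensorProduct.smul_tmul']
  congr 1

lemma toReal_sum {ι : Type*} (s : Finset ι) (x : ι → B) :
    toReal (∑ i ∈ s, x i) = ∑ i ∈ s, toReal (x i) :=
  TensorProduct.tmul_sum _ _ _

/-- An endomorphism of the Hodge structure which is self-adjoint for the polarization. -/
structure IsSelfAdjoint (H : PolarizedHodge B) (α : B →ₗ[ℚ] B) : Prop where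
  comm : ∀ z x, H.circle.act z (realMap α x) = realMap α (H.circle.act z x)
  adj : ∀ x y, H.form (α x) y = H.form x (α y)

/-- **The discriminants of the eigenspaces are positive.** -/
theorem real_det_pos {H : PolarizedHodge B} {α : B →ₗ[ℚ] B} (hα : IsSelfAdjoint H α) {m : ℕ}
    (b : Basis (Fin m) ℚ B) {E : Type} [Field E] [CharZero E] (τ : E →+* ℝ) {lam : E} {s : ℕ}
    {u : Fin s → Fin m → E} (hu : LinearIndependent E u)
    (hmem : ∀ i, ((LinearMap.toMatrix b b α).map (Rat.castHom E)).mulVec (u i) = lam • u i)
    (hker : ∀ x, ((LinearMap.toMatrix b b α).map (Rat.castHom E)).mulVec x = lam • x →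
      x ∈ Submodule.span E (Set.range u)) :
    0 < τ (gramE ((LinearMap.BilinForm.toMatrix b H.form).map (Rat.castHom E)) u).det := by
  set w : Fin m → RealExt B := fun k => toReal (b k) with hw
  have hwli : LinearIndependent ℝ w := toReal_indep b.linearIndependent
  have hwsp : Submodule.span ℝ (Set.range w) = ⊤ := by
    have h1 := (realBasis b).span_eq
    rw [← h1]
    congr 2
    funext k
    exact (realBasis_apply b k).symm
  have hτ : ∀ q : ℚ, τ (Rat.castHom E q) = (q : ℝ) := fun q => by
    show τ (q : E) = (q : ℝ)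
    rw [map_ratCast]
  have hT : ∀ k, realMap α (w k) =
      ∑ l, τ (((LinearMap.toMatrix b b α).map (Rat.castHom E)) l k) • w l := by
    intro k
    rw [hw]
    show realMap α (toReal (b k)) = _
    rw [realMap_toReal]
    have h1 : α (b k) = ∑ l, LinearMap.toMatrix b b α l k • b l := by
      conv_lhs => rw [← b.sum_repr (α (b k))]
      refine Finset.sum_congr rfl fun l _ => ?_
      rw [LinearMap.toMatrix_apply]
    rw [h1, toReal_sum]
    refine Finset.sum_congr rfl fun l _ => ?_
    rw [toReal_smul, Matrix.map_apply, hτ]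
  obtain ⟨hli, heig⟩ := eig_family τ hwli (realMap α) hT lam hu hmem hker
  set V : Submodule ℝ (RealExt B) := LinearMap.ker (realMap α - τ lam • LinearMap.id) with hV
  have hVmem : ∀ x, x ∈ V ↔ realMap α x = τ lam • x := by
    intro x
    rw [hV, LinearMap.mem_ker, LinearMap.sub_apply, LinearMap.smul_apply, LinearMap.id_apply,
      sub_eq_zero]
  obtain ⟨b', hb'⟩ := exists_basis_of (U := V) hli (fun x => by
    rw [hVmem]
    exact heig x (by rw [hwsp]; exact Submodule.mem_top))
  have hstab : ∀ z, ∀ x ∈ V, actLin H z x ∈ V := by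
    intro z x hx
    rw [hVmem] at hx ⊢
    show realMap α (H.circle.act z x) = τ lam • H.circle.act z x
    rw [← hα.comm, hx]
    exact (H.circle.linear z).map_smul _ _
  set f : LinearMap.BilinForm ℝ V := (realForm H.form).restrict V with hf
  have hpos := det_pos_real b' f ((actLin H (Circle.exp (Real.pi / 2))).restrict (hstab _))
    ((actLin H (Circle.exp (Real.pi / 4))).restrict (hstab _)) (by
      apply LinearMap.ext
      intro x
      apply Subtype.ext
      show H.circle.act (Circle.exp (Real.pi / 2)) x =
        H.circle.act (Circle.exp (Real.pi / 4)) (H.circle.act (Circle.exp (Real.pi / 4)) x)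
      rw [← H.circle.mul, ← Circle.exp_add]
      congr 2
      ring) (by
      intro x hx
      exact H.pos x (fun h => hx (Subtype.ext h)))
  have hmat : LinearMap.BilinForm.toMatrix b' f =
      τ.mapMatrix (gramE ((LinearMap.BilinForm.toMatrix b H.form).map (Rat.castHom E)) u) := by
    ext i j
    rw [LinearMap.BilinForm.toMatrix_apply, RingHom.mapMatrix_apply, Matrix.map_apply]
    show realForm H.form (b' i) (b' j) = _
    rw [hb', hb']
    refine gram_eig τ (w := w) (f := realForm H.form) (fun k l => ?_) u i j
    rw [Matrix.map_apply, hτ, LinearMap.BilinForm.toMatrix_apply]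
    exact form_base H (b k) (b l)
  rw [hmat, ← RingHom.map_det] at hpos
  exact hpos

end Pool.Agent.X305.PE
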