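import Pool.Agent.X305.PI.Defs
import Pool.Agent.X305.PE.RealEig

/-!
# The standard conjecture of Hodge type and self-adjoint correspondences. Definitions
-/

set_option autoImplicit false

open CategoryTheory AlgebraicGeometry Polynomial

universe u v

namespace Pool.Agent.X305.PE

open Pool.Agent.H914 VarClass Obj WeilCohomology Pool.Agent.X305.HA Pool.Agent.X305.PI

/-- The eigenspace `T x = μ x`. -/
def eigSub {K V : Type*} [Field K] [AddCommGroup V] [Module K V] (T : V →ₗ[K] V) (μ : K) :
    Submodule K V :=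
  LinearMap.ker (T - μ • LinearMap.id)

variable {k : Type u} [Field k] {𝒱 : VarClass k} {ops : CycleOps 𝒱}

/-- The part of the primitive cohomology of `X` in degree `2 n` on which the correspondence `A` acts
as multiplication by `μ`. -/
noncomputable def eigenpart (W : WeilCohomology.{u, v} ops) (X : 𝒱.Obj) (D : X.Cycles) (n g : ℕ)
    (A : (X.prod X).Cycles) (μ : W.K) : Submodule W.K (W.H X) :=
  prim W X D n g ⊓ eigSub (W.corr (W.cl (X.prod X) A)) μ

/-- The standard conjecture of Hodge type for `X`, `D` in codimension `n`, where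
`dim X = 2 n + g`, for the cohomology `W`: `(-1) ^ n deg (z · z · D ^ g) > 0` for all cycles `z` of
codimension `n` whose class is primitive and not zero. -/
def HodgeTypeAt (W : WeilCohomology.{u, v} ops) (X : 𝒱.Obj) (D : X.Cycles) (n g : ℕ) : Prop :=
  ∀ z, X.IsCyc n z → W.cl X (divPow ops D (g + 1) z) = 0 → W.cl X z ≠ 0 →
    0 < hodgeNorm ops X D n g z

/-- The endomorphism `f` of `X` acts on the cohomology like the Frobenius endomorphism relative to
the field with `q` elements, if `X`, `D` and all classes of cycles of codimension `n` are defined over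
this field. -/
structure ActsAsFrobenius (W : WeilCohomology.{u, v} ops) (X : 𝒱.Obj) (D : X.Cycles) (f : X ⟶ X)
    (q n : ℕ) : Prop where
  map_div : Scales (W.map f) q (W.cl X D)
  tr_map : TraceScales (W.map f) (W.tr X) (q ^ X.dim : ℕ)
  map_cycle : ∀ z, X.IsCyc n z → Scales (W.map f) (q ^ n : ℕ) (W.cl X z)

/-- The reduction `X`, `D` over the algebraic closure of a finite field of characteristic `p` of a
variety and a divisor in characteristic zero, together with the reduction `A` of a correspondence, in
codimension `n` and with `dim X = 2 n + g`: `W ℓ` is the `ℓ`-adic cohomology, `ℓ ≠ p`; the conjecture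
`A` of Lefschetz type holds for `X` and `D`; `f` is the Frobenius endomorphism relative to a finite
field with `q` elements over which `X`, `D` and all classes of cycles of codimension `n` are defined;
the maps `c ℓ` identify the primitive cohomology with the Hodge structure `H` of the lift, and the
action of `A` with that of the self-adjoint endomorphism `α` of `H`. -/
structure IsReductionWith {B : Type} [AddCommGroup B] [Module ℚ B] {p : ℕ}
    (W : PrimesNe p → WeilCohomology.{u, v} ops) (X : 𝒱.Obj) (D : X.Cycles) (n g : ℕ) (f : X ⟶ X)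
    (q : ℕ) (H : PolarizedHodge B) (c : ∀ ℓ, B →+ (W ℓ).H X) (A : (X.prod X).Cycles)
    (α : B →ₗ[ℚ] B) : Prop where
  coeff : ∀ ℓ, Nonempty ((W ℓ).K ≃+* ℚ_[ℓ])
  div : X.IsCyc 1 D
  dim : 2 * n + g = X.dim
  lefschetz : ∀ ℓ, LefschetzA (W ℓ) X D
  pos : 0 < q
  frobenius : ∀ ℓ, ActsAsFrobenius (W ℓ) X D f q n
  comparison : ∀ ℓ, IsComparison (W ℓ) X D n g H (c ℓ)
  cyc : (X.prod X).IsCyc X.dim A
  corr : ∀ ℓ x, (W ℓ).corr ((W ℓ).cl (X.prod X) A) (c ℓ x) = c ℓ (α x)
  adj : IsSelfAdjoint H α

/-- In each eigenspace of the correspondence `A` there is at most one Tate class: the number field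
`E`, with a real embedding `τ`, contains the set `Λ` of all eigenvalues of `α`, which is
diagonalisable over `E`; for `λ` in `Λ` the characteristic polynomial of `q ^ (-n) f^*` on the
`λ`-eigenspace of `A` in the primitive cohomology is `R λ`, for all `ℓ` and all embeddings of `E` in the
coefficient field; its roots have absolute value `1` (over `τ`), `-1` is not a root and `1` is at most
a simple root. -/
structure MultiplicityOne {B : Type} [AddCommGroup B] [Module ℚ B] {p : ℕ}
    (W : PrimesNe p → WeilCohomology.{u, v} ops) (X : 𝒱.Obj) (D : X.Cycles) (n g : ℕ) (f : X ⟶ X)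
    (q : ℕ) (A : (X.prod X).Cycles) (α : B →ₗ[ℚ] B) {E : Type} [Field E] [NumberField E]
    (τ : E →+* ℝ) (Λ : Finset E) (R : E → E[X]) : Prop where
  eigenvalues : (minpoly ℚ α).map (Rat.castHom E) = ∏ μ ∈ Λ, (Polynomial.X - C μ)
  charpoly : ∀ ℓ (σ : E →+* (W ℓ).K), ∀ μ ∈ Λ, ScaledCharpoly ((W ℓ).map f).toLinearMap
    (eigenpart (W ℓ) X D n g A (σ μ)) (q ^ n : ℕ) ((R μ).map σ)
  weight : ∀ μ ∈ Λ, ∀ z : ℂ, ((R μ).map (Complex.ofRealHom.comp τ)).eval z = 0 → ‖z‖ = 1
  neg_one : ∀ μ ∈ Λ, (R μ).eval (-1) ≠ 0
  simple : ∀ μ ∈ Λ, (R μ).rootMultiplicity 1 ≤ 1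

end Pool.Agent.X305.PE
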