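import Pool.Agent.X305.PE.Local
import Pool.Agent.X305.PI.Glob

/-!
# The numbers `deg (z · D ^ g · A_*^i z)`
-/

set_option autoImplicit false

open CategoryTheory AlgebraicGeometry Polynomial

universe u v

namespace Pool.Agent.X305.PE

open Pool.Agent.H914 VarClass Obj WeilCohomology Pool.Agent.X305.HA Pool.Agent.TH720.LB
  Pool.Agent.X305.PI

/-- the functional `X ^ i ↦ s i` -/
noncomputable def numL {E : Type*} [Field E] (s : ℕ → ℚ) : E[X] →ₗ[E] E :=
  Polynomial.lsum fun i => LinearMap.mulRight E (s i : E)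

lemma numL_monomial {E : Type*} [Field E] (s : ℕ → ℚ) (i : ℕ) (a : E) :
    numL s (monomial i a) = a * (s i : E) := by
  rw [numL, Polynomial.lsum_apply, Polynomial.sum_monomial_index, LinearMap.mulRight_apply]
  rw [LinearMap.mulRight_apply, zero_mul]

lemma numL_one {E : Type*} [Field E] (s : ℕ → ℚ) : numL s (1 : E[X]) = (s 0 : E) := by
  rw [← Polynomial.monomial_zero_one, numL_monomial, one_mul]

/-- positivity of monic real polynomials without real roots -/
lemma real_pos {P : ℝ[X]} (hP : P.Monic) (h : ∀ x : ℝ, P.eval x ≠ 0) (x : ℝ) : 0 < P.eval x := by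
  by_contra hcon
  push Not at hcon
  have hx' : P.eval x < 0 := lt_of_le_of_ne hcon (h _)
  have hdeg : 0 < P.degree := by
    by_contra hd
    push Not at hd
    have h1 : P = 1 := hP.degree_le_zero_iff_eq_one.1 hd
    rw [h1, eval_one] at hx'
    linarith
  have ht := P.tendsto_atTop_of_leadingCoeff_nonneg hdeg (by rw [hP.leadingCoeff]; norm_num)
  obtain ⟨y, hy1, hy2⟩ := ((ht.eventually_gt_atTop 0).and (Filter.eventually_gt_atTop x)).exists
  obtain ⟨c, -, hc⟩ := intermediate_value_Icc hy2.le P.continuous.continuousOn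
    (show (0 : ℝ) ∈ Set.Icc (P.eval x) (P.eval y) from ⟨hx'.le, hy1.le⟩)
  exact h c hc

/-- the factorisation of the characteristic polynomial -/
lemma split_polyE {E : Type} [Field E] (τ : E →+* ℝ) {R : E[X]} (hRm : R.Monic)
    (hR1 : ∀ z : ℂ, (R.map (Complex.ofRealHom.comp τ)).eval z = 0 → ‖z‖ = 1)
    (hR2 : R.eval (-1) ≠ 0) : ∃ Q : E[X], R = (Polynomial.X - 1) ^ R.rootMultiplicity 1 * Q ∧
      0 < τ (Q.eval 1 * Q.eval (-1)) ∧ Q.eval 1 ≠ 0 ∧ Q.eval (-1) ≠ 0 := by
  obtain ⟨Q, hQ, hnd⟩ := Polynomial.exists_eq_pow_rootMultiplicity_mul_and_not_dvd R hRm.ne_zero 1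
  rw [Polynomial.C_1] at hQ
  have h1 : Q.eval 1 ≠ 0 := fun h => hnd (Polynomial.dvd_iff_isRoot.2 h)
  have h2 : Q.eval (-1) ≠ 0 := by
    intro h
    apply hR2
    rw [hQ, Polynomial.eval_mul, h, mul_zero]
  have hX : ((Polynomial.X - 1 : E[X]) ^ R.rootMultiplicity 1).Monic := by
    have := (Polynomial.monic_X_sub_C (1 : E)).pow (R.rootMultiplicity 1)
    rwa [Polynomial.C_1] at this
  have hQm : Q.Monic := hX.of_mul_monic_left (by rw [← hQ]; exact hRm)
  have hev : ∀ x : E, (Q.map τ).eval (τ x) = τ (Q.eval x) := fun x => by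
    rw [Polynomial.eval_map, Polynomial.eval₂_at_apply]
  have hnr : ∀ x : ℝ, (Q.map τ).eval x ≠ 0 := by
    intro x hx
    have h3 : (Q.map (Complex.ofRealHom.comp τ)).eval (x : ℂ) = 0 := by
      rw [← Polynomial.map_map, Polynomial.eval_map]
      have := Polynomial.eval₂_at_apply (p := Q.map τ) Complex.ofRealHom x
      rw [hx, map_zero] at this
      exact this
    have h4 : (R.map (Complex.ofRealHom.comp τ)).eval (x : ℂ) = 0 := by
      rw [hQ, Polynomial.map_mul, Polynomial.eval_mul, h3, mul_zero]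
    have h5 := hR1 _ h4
    rw [Complex.norm_real, Real.norm_eq_abs] at h5
    rcases eq_or_eq_neg_of_abs_eq h5 with h6 | h6
    · rw [h6, ← map_one τ, hev] at hx
      exact h1 ((map_eq_zero τ).1 hx)
    · rw [h6, ← map_one τ, ← map_neg τ, hev] at hx
      exact h2 ((map_eq_zero τ).1 hx)
  refine ⟨Q, hQ, ?_, h1, h2⟩
  rw [map_mul]
  have e1 := real_pos (hQm.map τ) hnr 1
  have e2 := real_pos (hQm.map τ) hnr (-1)
  rw [← map_one τ, hev] at e1
  rw [← map_one τ, ← map_neg τ, hev] at e2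
  exact mul_pos e1 e2

variable {k : Type u} [Field k] {𝒱 : VarClass k} {ops : CycleOps 𝒱}
  {W : WeilCohomology.{u, v} ops} {X : 𝒱.Obj} {D : X.Cycles} {n g : ℕ}

/-- The cycle `A_* z`. -/
noncomputable def corrCyc (ops : CycleOps 𝒱) {X : 𝒱.Obj} (A : (X.prod X).Cycles) (z : X.Cycles) :
    X.Cycles :=
  ops.push (snd X X) (ops.mul A (ops.pull (fst X X) z))

lemma cl_corrCyc (A : (X.prod X).Cycles) (z : X.Cycles) :
    W.cl X (corrCyc ops A z) = W.corr (W.cl (X.prod X) A) (W.cl X z) := by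
  rw [corrCyc, W.cl_push, W.cl_mul, W.cl_pull, corr_apply]

lemma cl_corrCyc_iter (A : (X.prod X).Cycles) (z : X.Cycles) (i : ℕ) :
    W.cl X ((corrCyc ops A)^[i] z) = ((W.corr (W.cl (X.prod X) A)) ^ i) (W.cl X z) := by
  induction i with
  | zero => rfl
  | succ i ih =>
    rw [Function.iterate_succ_apply', cl_corrCyc, ih, pow_succ', Module.End.mul_apply]

section

variable {A : (X.prod X).Cycles} (hAc : (X.prod X).IsCyc X.dim A)
include hAc

lemma corrCyc_mem {z : X.Cycles} (hz : X.IsCyc n z) : X.IsCyc n (corrCyc ops A z) := by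
  apply ops.push_mem _ (ops.mul_mem hAc (ops.pull_mem _ hz))
  rw [dim_prod]
  omega

lemma corrCyc_iter_mem {z : X.Cycles} (hz : X.IsCyc n z) (i : ℕ) :
    X.IsCyc n ((corrCyc ops A)^[i] z) := by
  induction i with
  | zero => exact hz
  | succ i ih =>
    rw [Function.iterate_succ_apply']
    exact corrCyc_mem hAc ih

lemma pow_alg {x : W.H X} (hx : x ∈ algClasses W X n) (i : ℕ) :
    ((W.corr (W.cl (X.prod X) A)) ^ i) x ∈ algClasses W X n := by
  obtain ⟨z, hz, rfl⟩ := hx
  exact ⟨_, corrCyc_iter_mem (ops := ops) hAc hz i, cl_corrCyc_iter A z i⟩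

lemma nz_corr {ν : W.H X} (hν : NZ W X ν) : NZ W X (W.corr (W.cl (X.prod X) A) ν) := by
  intro r b hb
  rw [tr_corr_swap (W.cl_mem hAc), ← W.cl_pull]
  have h1 := corr_alg (W := W) (ops.pull_mem (swap X X) hAc) hb (r := 0) (by omega) (Nat.zero_le _)
  exact hν _ _ h1

lemma nz_pow {ν : W.H X} (hν : NZ W X ν) (i : ℕ) :
    NZ W X (((W.corr (W.cl (X.prod X) A)) ^ i) ν) := by
  induction i with
  | zero => exact hν
  | succ i ih =>
    rw [pow_succ', Module.End.mul_apply]
    exact nz_corr hAc ih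

variable {B : Type} [AddCommGroup B] [Module ℚ B] {H : PolarizedHodge B} {c : B →+ W.H X}
  {α : B →ₗ[ℚ] B} (hD : X.IsCyc 1 D) (hd : 2 * n + g = X.dim)
  (hc : IsComparison W X D n g H c) (hA : ∀ x, W.corr (W.cl (X.prod X) A) (c x) = c (α x))
  {z : X.Cycles} (hz : X.IsCyc n z) {x : W.H X} (hx : x ∈ prim W X D n g)
  (hxa : x ∈ algClasses W X n) (hzx : NZ W X (W.cl X z - x))
include hD hd hc hA hz hx hxa hzx

/-- the values of the form -/
lemma hfrm_num {E : Type} [Field E] [CharZero E] (σ : E →+* W.K) (P : E[X]) :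
    hfrm W X D n g x (aeval (W.corr (W.cl (X.prod X) A)) (P.map σ) x) =
      σ (numL (fun i => pairing ops X D n g z ((corrCyc ops A)^[i] z)) P) := by
  induction P using Polynomial.induction_on' with
  | add P Q hP hQ =>
    rw [Polynomial.map_add, map_add, LinearMap.add_apply, map_add, map_add, map_add, hP, hQ]
  | monomial i a =>
    rw [numL_monomial, Polynomial.map_monomial, aeval_monomial, Module.End.mul_apply,
      Module.algebraMap_end_apply, map_smul, smul_eq_mul, map_mul, map_ratCast]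
    congr 1
    have hp : ((W.corr (W.cl (X.prod X) A)) ^ i) x ∈ prim W X D n g := by
      have := aeval_prim hc hA (Polynomial.X ^ i) hx
      rwa [map_pow, aeval_X] at this
    have h1 := frm_cyc (W := W) hD hd (z := z) (w := (corrCyc ops A)^[i] z) hz
      (corrCyc_iter_mem hAc hz i) (c := ⟨x, hx⟩)
      (d := ⟨((W.corr (W.cl (X.prod X) A)) ^ i) x, hp⟩) hxa hzx (by
        rw [cl_corrCyc_iter]
        show NZ W X (((W.corr (W.cl (X.prod X) A)) ^ i) (W.cl X z) -
          ((W.corr (W.cl (X.prod X) A)) ^ i) x)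
        rw [← map_sub]
        exact nz_pow hAc hzx i)
    exact h1

end

end Pool.Agent.X305.PE
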