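import Pool.Agent.X305.PE.Place
import Pool.Agent.X305.PI.Split

/-!
# One place: the discriminant of the eigenspace
-/

set_option autoImplicit false

open CategoryTheory AlgebraicGeometry Polynomial

universe u v

namespace Pool.Agent.X305.PE

open Pool.Agent.H914 VarClass Obj WeilCohomology Pool.Agent.X305.HA Pool.Agent.TH720.LB
  Pool.Agent.X305.PI

variable {k : Type u} [Field k] {𝒱 : VarClass k} {ops : CycleOps 𝒱}
  {W : WeilCohomology.{u, v} ops} {X : 𝒱.Obj} {D : X.Cycles} {n g : ℕ}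
  {B : Type} [AddCommGroup B] [Module ℚ B] {H : PolarizedHodge B} {c : B →+ W.H X}
  {A : (X.prod X).Cycles} {α : B →ₗ[ℚ] B}

lemma mem_eigenpart {μ : W.K} {x : W.H X} : x ∈ eigenpart W X D n g A μ ↔
    x ∈ prim W X D n g ∧ W.corr (W.cl (X.prod X) A) x = μ • x := by
  rw [eigenpart, Submodule.mem_inf, mem_eigSub]

/-- **The discriminant at one place.** -/
theorem place (hd : 2 * n + g = X.dim) {f : X ⟶ X} {q : ℕ} (hq : 0 < q)
    (hf : ActsAsFrobenius W X D f q n) (hc : IsComparison W X D n g H c)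
    (hA : ∀ x, W.corr (W.cl (X.prod X) A) (c x) = c (α x)) (hα : IsSelfAdjoint H α)
    {E : Type} [Field E] [CharZero E] (τ : E →+* ℝ) (σ : E →+* W.K) {lam : E} {R : E[X]}
    (hchar : ScaledCharpoly (W.map f).toLinearMap (eigenpart W X D n g A (σ lam)) (q ^ n : ℕ)
      (R.map σ)) {m : ℕ} (b : Module.Basis (Fin m) ℚ B) {s : ℕ} {u : Fin s → Fin m → E}
    (hu : LinearIndependent E u)
    (hmem : ∀ i, ((LinearMap.toMatrix b b α).map (Rat.castHom E)).mulVec (u i) = lam • u i)
    (hker : ∀ x, ((LinearMap.toMatrix b b α).map (Rat.castHom E)).mulVec x = lam • x →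
      x ∈ Submodule.span E (Set.range u)) {t : ℕ} {Q : E[X]}
    (hR : R = (Polynomial.X - 1) ^ t * Q) (h1 : Q.eval 1 ≠ 0) (h2 : Q.eval (-1) ≠ 0) (ht : t ≤ 1)
    {v : W.H X} (hv : v ∈ eigenpart W X D n g A (σ lam)) (hv0 : v ≠ 0)
    (hfv : W.map f v = (q : W.K) ^ n • v) :
    hfrm W X D n g v v ≠ 0 ∧
      IsSquare (σ (gramE ((LinearMap.BilinForm.toMatrix b H.form).map (Rat.castHom E)) u).det *
        hfrm W X D n g v v * σ (Q.eval 1 * Q.eval (-1))) := by
  have hpos := real_det_pos hα b τ hu hmem hker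
  have hdet0 : (gramE ((LinearMap.BilinForm.toMatrix b H.form).map (Rat.castHom E)) u).det ≠ 0 := by
    intro h
    rw [h, map_zero] at hpos
    exact lt_irrefl _ hpos
  obtain ⟨hli, hsp⟩ := comp_basis hc b
  have hσ : ∀ r : ℚ, σ (Rat.castHom E r) = (r : W.K) := fun r => by
    show σ (r : E) = (r : W.K)
    rw [map_ratCast]
  have hT : ∀ k, W.corr (W.cl (X.prod X) A) (c (b k)) =
      ∑ l, σ (((LinearMap.toMatrix b b α).map (Rat.castHom E)) l k) • c (b l) := by
    intro k
    rw [hA]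
    have h1 : α (b k) = ∑ l, LinearMap.toMatrix b b α l k • b l := by
      conv_lhs => rw [← b.sum_repr (α (b k))]
      refine Finset.sum_congr rfl fun l _ => ?_
      rw [LinearMap.toMatrix_apply]
    rw [h1, map_sum]
    refine Finset.sum_congr rfl fun l _ => ?_
    rw [comp_smul, Matrix.map_apply, hσ]
  obtain ⟨hli2, heig⟩ := eig_family σ hli (W.corr (W.cl (X.prod X) A)) hT lam hu hmem hker
  set U : Submodule W.K (W.H X) := eigenpart W X D n g A (σ lam) with hU
  obtain ⟨b', hb'⟩ := exists_basis_of (U := U) hli2 (fun x => by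
    constructor
    · intro hx
      obtain ⟨hx1, hx2⟩ := mem_eigenpart.1 hx
      exact (heig x (by rw [hsp]; exact hx1)).1 hx2
    · intro hx
      have hx1 : x ∈ prim W X D n g := by
        rw [← hsp]
        refine Submodule.span_le.2 ?_ hx
        rintro _ ⟨i, rfl⟩
        exact Submodule.sum_mem _ fun k _ => Submodule.smul_mem _ _
          (Submodule.subset_span ⟨k, rfl⟩)
      exact mem_eigenpart.2 ⟨hx1, (heig x (by rw [hsp]; exact hx1)).2 hx⟩)
  set f' : LinearMap.BilinForm W.K U := (hfrm W X D n g).restrict U with hf'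
  have hf'ap : ∀ x y : U, f' x y = hfrm W X D n g x y := fun x y => rfl
  have hgr : ∀ x : U, (x : W.H X) ∈ W.gr X (2 * n) := fun x => prim_gr (mem_eigenpart.1 x.2).1
  have hmat : LinearMap.BilinForm.toMatrix b' f' =
      σ.mapMatrix (gramE ((LinearMap.BilinForm.toMatrix b H.form).map (Rat.castHom E)) u) := by
    ext i j
    rw [LinearMap.BilinForm.toMatrix_apply, RingHom.mapMatrix_apply, Matrix.map_apply, hf'ap,
      hb', hb']
    refine gram_eig σ (w := fun k => c (b k)) (f := hfrm W X D n g) (fun k l => ?_) u i j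
    rw [Matrix.map_apply, hσ, LinearMap.BilinForm.toMatrix_apply]
    exact hc.form (b k) (b l)
  have hdet : (LinearMap.BilinForm.toMatrix b' f').det =
      σ (gramE ((LinearMap.BilinForm.toMatrix b H.form).map (Rat.castHom E)) u).det := by
    rw [hmat, ← RingHom.map_det]
  have hdetne : (LinearMap.BilinForm.toMatrix b' f').det ≠ 0 := by
    rw [hdet]
    exact fun h => hdet0 ((map_eq_zero σ).1 h)
  have hsymm : ∀ x y, f' x y = f' y x := fun x y => hfrm_symm (hgr x) (hgr y)
  have hnd : ∀ x, (∀ y, f' x y = 0) → x = 0 :=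
    fun x hx => ((LinearMap.BilinForm.nondegenerate_iff_det_ne_zero b').2 hdetne).1 x hx
  obtain ⟨F, hF', hchF⟩ := hchar
  have hF : ∀ x : U, (q : W.K) ^ n • (F x : W.H X) = W.map f x := fun x => by
    have := hF' x
    rwa [Nat.cast_pow] at this
  have hiso : ∀ x y, f' (F x) (F y) = f' x y := fun x y => hfrm_isom hq hd hf (hF x) (hF y)
  have hq0 : (q : W.K) ^ n ≠ 0 := pow_ne_zero _ (by exact_mod_cast hq.ne')
  set v' : U := ⟨v, hv⟩ with hv'
  have hv'0 : v' ≠ 0 := fun h => hv0 (congrArg Subtype.val h)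
  have hfix : F v' = v' := by
    apply Subtype.ext
    have h3 := hF v'
    rw [show W.map f (v' : W.H X) = (q : W.K) ^ n • (v' : W.H X) from hfv] at h3
    exact smul_right_injective _ hq0 h3
  have hQ1 : (Q.map σ).eval 1 = σ (Q.eval 1) := by
    rw [← map_one σ, Polynomial.eval_map, Polynomial.eval₂_at_apply]
  have hQ2 : (Q.map σ).eval (-1) = σ (Q.eval (-1)) := by
    rw [← map_one σ, ← map_neg σ, Polynomial.eval_map, Polynomial.eval₂_at_apply]
  have hQ1' : (Q.map σ).eval 1 ≠ 0 := by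
    rw [hQ1]
    exact fun h => h1 ((map_eq_zero σ).1 h)
  have hQ2' : (Q.map σ).eval (-1) ≠ 0 := by
    rw [hQ2]
    exact fun h => h2 ((map_eq_zero σ).1 h)
  have hroot : F.charpoly.eval 1 = 0 := by
    have h3 : Module.End.HasEigenvalue F 1 := by
      apply Module.End.hasEigenvalue_of_hasEigenvector (x := v')
      refine ⟨Module.End.mem_eigenspace_iff.2 ?_, hv'0⟩
      rw [hfix, one_smul]
    exact (Module.End.hasEigenvalue_iff_isRoot_charpoly F 1).1 h3
  have ht1 : t = 1 := by
    rcases Nat.eq_zero_or_pos t with h | h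
    · exfalso
      rw [hchF, hR, h, pow_zero, one_mul] at hroot
      exact hQ1' hroot
    · omega
  subst ht1
  have hchF2 : F.charpoly = (Polynomial.X - 1) ^ 1 * Q.map σ := by
    rw [hchF, hR, Polynomial.map_mul, Polynomial.map_pow, Polynomial.map_sub, Polynomial.map_X,
      Polynomial.map_one]
  obtain ⟨h3, r, hr⟩ := disc_split (z := fun _ : Fin 1 => v') hsymm hnd hiso
    (LinearIndependent.of_subsingleton (0 : Fin 1) hv'0) (fun _ => hfix) hchF2 hQ1' hQ2' b'
  rw [Matrix.det_fin_one] at h3 hr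
  refine ⟨h3, r, ?_⟩
  rw [hdet, hQ1, hQ2] at hr
  rw [map_mul, ← sq, ← hr]
  rfl

end Pool.Agent.X305.PE
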