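import Pool.Agent.X305.PE.Defs
import Pool.Agent.X305.PI.Main

/-!
# One place: the eigenspaces in the cohomology
-/

set_option autoImplicit false

open CategoryTheory AlgebraicGeometry Polynomial

universe u v

namespace Pool.Agent.X305.PE

open Pool.Agent.H914 VarClass Obj WeilCohomology Pool.Agent.X305.HA Pool.Agent.TH720.LB
  Pool.Agent.X305.PI

lemma mem_eigSub {K V : Type*} [Field K] [AddCommGroup V] [Module K V] {T : V →ₗ[K] V} {μ : K}
    {x : V} : x ∈ eigSub T μ ↔ T x = μ • x := by
  rw [eigSub, LinearMap.mem_ker, LinearMap.sub_apply, LinearMap.smul_apply, LinearMap.id_apply,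
    sub_eq_zero]

variable {k : Type u} [Field k] {𝒱 : VarClass k} {ops : CycleOps 𝒱}
  {W : WeilCohomology.{u, v} ops} {X : 𝒱.Obj} {D : X.Cycles} {n g : ℕ}

/-- the form on the whole cohomology -/
noncomputable def hfrm (W : WeilCohomology.{u, v} ops) (X : 𝒱.Obj) (D : X.Cycles) (n g : ℕ) :
    LinearMap.BilinForm W.K (W.H X) :=
  LinearMap.mk₂ W.K (fun x y => (-1) ^ n * W.tr X (x * (W.cl X D ^ g * y)))
    (fun x x' y => by rw [add_mul, map_add, mul_add])
    (fun a x y => by
      rw [smul_mul_assoc, map_smul, smul_eq_mul, smul_eq_mul]; ring)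
    (fun x y y' => by rw [mul_add, mul_add, map_add, mul_add])
    (fun a x y => by
      rw [mul_smul_comm, mul_smul_comm, map_smul, smul_eq_mul, smul_eq_mul]
      ring)

lemma hfrm_apply (x y : W.H X) : hfrm W X D n g x y =
    (-1) ^ n * W.tr X (x * (W.cl X D ^ g * y)) := rfl

lemma hfrm_symm {x y : W.H X} (hx : x ∈ W.gr X (2 * n)) (hy : y ∈ W.gr X (2 * n)) :
    hfrm W X D n g x y = hfrm W X D n g y x := by
  rw [hfrm_apply, hfrm_apply, comm_even hx, mul_assoc,
    comm_even hy (W.cl X D ^ g * x), mul_assoc, comm_even hx]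

lemma prim_gr {x : W.H X} (hx : x ∈ prim W X D n g) : x ∈ W.gr X (2 * n) := (mem_prim.1 hx).1

/-- the isometry -/
lemma hfrm_isom {f : X ⟶ X} {q : ℕ} (hq : 0 < q) (hd : 2 * n + g = X.dim)
    (hf : ActsAsFrobenius W X D f q n) {x y x' y' : W.H X} (hx : (q : W.K) ^ n • x' = W.map f x)
    (hy : (q : W.K) ^ n • y' = W.map f y) : hfrm W X D n g x' y' = hfrm W X D n g x y := by
  have hq0 : (q : W.K) ≠ 0 := by exact_mod_cast hq.ne'
  have h1 := hf.tr_map (x * (W.cl X D ^ g * y))
  have h0 : W.map f (W.cl X D) = (q : W.K) • W.cl X D := hf.map_div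
  rw [map_mul (W.map f), map_mul (W.map f), map_pow (W.map f), h0, ← hx, ← hy, _root_.smul_pow,
    smul_mul_assoc, smul_mul_assoc, mul_smul_comm, mul_smul_comm, mul_smul_comm, map_smul,
    map_smul, map_smul, smul_eq_mul, smul_eq_mul, smul_eq_mul, ← hd, Nat.cast_pow] at h1
  rw [hfrm_apply, hfrm_apply]
  have h2 : (q : W.K) ^ (2 * n + g) ≠ 0 := pow_ne_zero _ hq0
  apply mul_left_cancel₀ h2
  linear_combination (-1) ^ n * h1

variable {B : Type} [AddCommGroup B] [Module ℚ B] {H : PolarizedHodge B} {c : B →+ W.H X}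

lemma comp_smul (c : B →+ W.H X) (r : ℚ) (x : B) : c (r • x) = (r : W.K) • c x := by
  have := map_ratCast_smul c ℚ W.K r x
  rwa [Rat.cast_id] at this

/-- every basis of `B` gives a basis of the primitive cohomology -/
lemma comp_basis (hc : IsComparison W X D n g H c) {κ : Type} [Fintype κ] (b : Module.Basis κ ℚ B) :
    LinearIndependent W.K (fun i => c (b i)) ∧
      Submodule.span W.K (Set.range fun i => c (b i)) = prim W X D n g := by
  obtain ⟨m, b', hli', hs'⟩ := hc.basis
  have hsp : Submodule.span W.K (Set.range fun i => c (b i)) = prim W X D n g := by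
    apply le_antisymm
    · rw [Submodule.span_le]
      rintro _ ⟨i, rfl⟩
      exact comp_mem hc _
    · rw [← hs', Submodule.span_le]
      rintro _ ⟨j, rfl⟩
      show c (b' j) ∈ _
      rw [← b.sum_repr (b' j), map_sum]
      refine Submodule.sum_mem _ fun i _ => ?_
      rw [comp_smul]
      exact Submodule.smul_mem _ _ (Submodule.subset_span ⟨i, rfl⟩)
  refine ⟨?_, hsp⟩
  rw [linearIndependent_iff_card_eq_finrank_span, Set.finrank, hsp, ← hs',
    finrank_span_eq_card hli', ← Module.finrank_eq_card_basis b, ← Module.finrank_eq_card_basis b']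

section

variable {A : (X.prod X).Cycles} {α : B →ₗ[ℚ] B} (hc : IsComparison W X D n g H c)
  (hA : ∀ x, W.corr (W.cl (X.prod X) A) (c x) = c (α x))
include hc hA

/-- induction on the primitive cohomology -/
lemma prim_induction {P : W.H X → Prop} (h0 : P 0) (hadd : ∀ x y, P x → P y → P (x + y))
    (hsmul : ∀ (a : W.K) x, P x → P (a • x)) (hcomp : ∀ x, P (c x)) {x : W.H X}
    (hx : x ∈ prim W X D n g) : P x := by
  obtain ⟨m, b, -, hs⟩ := hc.basis
  rw [← hs] at hx
  refine Submodule.span_induction (p := fun x _ => P x) ?_ h0 (fun x y _ _ => hadd x y)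
    (fun a x _ => hsmul a x) hx
  rintro _ ⟨i, rfl⟩
  exact hcomp _

omit hA in
lemma prim_ind {P : W.H X → Prop} (h0 : P 0) (hadd : ∀ x y, P x → P y → P (x + y))
    (hsmul : ∀ (a : W.K) x, P x → P (a • x)) (hcomp : ∀ x, P (c x)) {x : W.H X}
    (hx : x ∈ prim W X D n g) : P x := by
  obtain ⟨m, b, -, hs⟩ := hc.basis
  rw [← hs] at hx
  refine Submodule.span_induction (p := fun x _ => P x) ?_ h0 (fun x y _ _ => hadd x y)
    (fun a x _ => hsmul a x) hx
  rintro _ ⟨i, rfl⟩
  exact hcomp _

lemma corr_prim {x : W.H X} (hx : x ∈ prim W X D n g) :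
    W.corr (W.cl (X.prod X) A) x ∈ prim W X D n g := by
  refine prim_ind hc (P := fun x => W.corr (W.cl (X.prod X) A) x ∈ prim W X D n g) ?_ ?_ ?_ ?_ hx
  · rw [map_zero]; exact Submodule.zero_mem _
  · intro x y hx hy
    rw [map_add]
    exact Submodule.add_mem _ hx hy
  · intro a x hx
    rw [map_smul]
    exact Submodule.smul_mem _ _ hx
  · intro x
    rw [hA]
    exact comp_mem hc _

lemma corr_adj (hα : IsSelfAdjoint H α) {x y : W.H X} (hx : x ∈ prim W X D n g)
    (hy : y ∈ prim W X D n g) :
    hfrm W X D n g (W.corr (W.cl (X.prod X) A) x) y =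
      hfrm W X D n g x (W.corr (W.cl (X.prod X) A) y) := by
  refine prim_ind hc (P := fun x => hfrm W X D n g (W.corr (W.cl (X.prod X) A) x) y =
      hfrm W X D n g x (W.corr (W.cl (X.prod X) A) y)) ?_ ?_ ?_ ?_ hx
  · rw [map_zero, map_zero, LinearMap.zero_apply, LinearMap.zero_apply]
  · intro x x' h1 h2
    rw [map_add, map_add, map_add, LinearMap.add_apply, LinearMap.add_apply, h1, h2]
  · intro a x h1
    rw [map_smul, map_smul, map_smul, LinearMap.smul_apply, LinearMap.smul_apply, h1]
  · intro x
    refine prim_ind hc (P := fun y => hfrm W X D n g (W.corr (W.cl (X.prod X) A) (c x)) y =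
      hfrm W X D n g (c x) (W.corr (W.cl (X.prod X) A) y)) ?_ ?_ ?_ ?_ hy
    · rw [map_zero, map_zero, map_zero]
    · intro y y' h1 h2
      rw [map_add, map_add, map_add, h1, h2]
    · intro a y h1
      rw [map_smul, map_smul, map_smul, h1]
    · intro y
      rw [hA, hA]
      have h1 := hc.form (α x) y
      have h2 := hc.form x (α y)
      rw [hα.adj] at h1
      exact h1.trans h2.symm

lemma aeval_prim (P : (W.K)[X]) {x : W.H X} (hx : x ∈ prim W X D n g) :
    aeval (W.corr (W.cl (X.prod X) A)) P x ∈ prim W X D n g := by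
  induction P using Polynomial.induction_on' with
  | add P Q hP hQ =>
    rw [map_add, LinearMap.add_apply]
    exact Submodule.add_mem _ hP hQ
  | monomial i a =>
    rw [aeval_monomial, Module.End.mul_apply, Module.algebraMap_end_apply]
    refine Submodule.smul_mem _ _ ?_
    induction i with
    | zero => exact hx
    | succ i ih =>
      rw [pow_succ', Module.End.mul_apply]
      exact corr_prim hc hA ih

lemma aeval_adj (hα : IsSelfAdjoint H α) (P : (W.K)[X]) {x y : W.H X}
    (hx : x ∈ prim W X D n g) (hy : y ∈ prim W X D n g) :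
    hfrm W X D n g (aeval (W.corr (W.cl (X.prod X) A)) P x) y =
      hfrm W X D n g x (aeval (W.corr (W.cl (X.prod X) A)) P y) := by
  induction P using Polynomial.induction_on' with
  | add P Q hP hQ =>
    rw [map_add, LinearMap.add_apply, LinearMap.add_apply, map_add, map_add, LinearMap.add_apply,
      hP, hQ]
  | monomial i a =>
    rw [aeval_monomial, Module.End.mul_apply, Module.End.mul_apply, Module.algebraMap_end_apply,
      Module.algebraMap_end_apply, map_smul, map_smul, LinearMap.smul_apply]
    congr 1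
    induction i generalizing x with
    | zero => rfl
    | succ i ih =>
      have h1 := ih (x := W.corr (W.cl (X.prod X) A) x) (corr_prim hc hA hx)
      have h2 : ((W.corr (W.cl (X.prod X) A)) ^ (i + 1)) x =
          ((W.corr (W.cl (X.prod X) A)) ^ i) (W.corr (W.cl (X.prod X) A) x) := by
        rw [pow_succ, Module.End.mul_apply]
      have h3 : ((W.corr (W.cl (X.prod X) A)) ^ (i + 1)) y =
          W.corr (W.cl (X.prod X) A) (((W.corr (W.cl (X.prod X) A)) ^ i) y) := by
        rw [pow_succ', Module.End.mul_apply]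
      have h4 : ((W.corr (W.cl (X.prod X) A)) ^ i) y ∈ prim W X D n g := by
        have := aeval_prim hc hA (Polynomial.X ^ i) hy
        rwa [map_pow, aeval_X] at this
      rw [h2, h1, h3]
      exact corr_adj hc hA hα hx h4

/-- a polynomial which annihilates `α` annihilates the primitive cohomology -/
lemma aeval_zero {P : ℚ[X]} (hP : aeval α P = 0) {x : W.H X} (hx : x ∈ prim W X D n g) :
    aeval (W.corr (W.cl (X.prod X) A)) (P.map (Rat.castHom W.K)) x = 0 := by
  have key : ∀ (P : ℚ[X]) (x : B), aeval (W.corr (W.cl (X.prod X) A)) (P.map (Rat.castHom W.K))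
      (c x) = c (aeval α P x) := by
    intro P x
    induction P using Polynomial.induction_on' with
    | add P Q hP hQ =>
      rw [Polynomial.map_add, map_add, LinearMap.add_apply, map_add, LinearMap.add_apply, map_add,
        hP, hQ]
    | monomial i a =>
      rw [Polynomial.map_monomial, aeval_monomial, aeval_monomial, Module.End.mul_apply,
        Module.End.mul_apply, Module.algebraMap_end_apply, Module.algebraMap_end_apply, comp_smul]
      congr 1
      induction i with
      | zero => rfl
      | succ i ih =>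
        rw [pow_succ', pow_succ', Module.End.mul_apply, Module.End.mul_apply, ih, hA]
  refine prim_ind hc (P := fun x =>
    aeval (W.corr (W.cl (X.prod X) A)) (P.map (Rat.castHom W.K)) x = 0) ?_ ?_ ?_ ?_ hx
  · rw [map_zero]
  · intro x y hx hy
    rw [map_add, hx, hy, add_zero]
  · intro a x hx
    rw [map_smul, hx, smul_zero]
  · intro x
    rw [key, hP, LinearMap.zero_apply, map_zero]

end

end Pool.Agent.X305.PE
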